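import Pool.Agent.helper64.PB.SpecF

/-! MP_069684_lc, row pb:HNK: Hankel determinants of power sums and the locator polynomial. -/

set_option autoImplicit false

namespace Pool.Agent.PB

open Finset Polynomial

theorem HNK_sum {K : Type} [Field K] (V : Finset K) (f : K → K) :
    ∑ y ∈ V, f y = ∑ k : Fin V.card, f (V.equivFin.symm k : K) := by
  rw [← Finset.sum_coe_sort V f]
  exact (Equiv.sum_comp V.equivFin.symm (fun y : V => f y)).symm

theorem HNK_last {K : Type} [Field K] (S : ℕ → K) (w : ℕ) :
    hk S w (Fin.last w) = Matrix.det (Matrix.of fun i l : Fin w => S ((i : ℕ) + (l : ℕ))) := by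
  unfold hk
  rw [Fin.val_last, Even.neg_one_pow ⟨w, rfl⟩, one_mul]
  congr 1
  ext i l
  show S ((i : ℕ) + ((Fin.last w).succAbove l : ℕ)) = S ((i : ℕ) + (l : ℕ))
  rw [Fin.succAbove_last, Fin.val_castSucc]

theorem HNK_mul {K : Type} [Field K] (V : Finset K) (w : ℕ) :
    (Matrix.of fun i l : Fin w => (fun m => ∑ y ∈ V, y ^ m) ((i : ℕ) + (l : ℕ))) =
      (Matrix.of fun (i : Fin w) (k : Fin V.card) => (V.equivFin.symm k : K) ^ (i : ℕ)) *
      (Matrix.of fun (k : Fin V.card) (l : Fin w) => (V.equivFin.symm k : K) ^ (l : ℕ)) := by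
  ext i l
  rw [Matrix.mul_apply]
  show ∑ y ∈ V, y ^ ((i : ℕ) + (l : ℕ)) = ∑ k : Fin V.card,
    (V.equivFin.symm k : K) ^ (i : ℕ) * (V.equivFin.symm k : K) ^ (l : ℕ)
  rw [HNK_sum]
  exact Finset.sum_congr rfl fun k _ => pow_add _ _ _

theorem HNK_inj {K : Type} [Field K] (V : Finset K) :
    Function.Injective fun k : Fin V.card => (V.equivFin.symm k : K) := by
  intro k l h
  exact V.equivFin.symm.injective (Subtype.ext h)

theorem HNK_det {K : Type} [Field K] (V : Finset K) :
    Matrix.det (Matrix.of fun (i : Fin V.card) (k : Fin V.card) =>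
      (V.equivFin.symm k : K) ^ (i : ℕ)) ≠ 0 := by
  have h1 : (Matrix.of fun (i : Fin V.card) (k : Fin V.card) =>
      (V.equivFin.symm k : K) ^ (i : ℕ)) =
      (Matrix.vandermonde fun k : Fin V.card => (V.equivFin.symm k : K)).transpose := by
    ext i k
    rfl
  rw [h1, Matrix.det_transpose]
  exact Matrix.det_vandermonde_ne_zero_iff.2 (HNK_inj V)

/-- the left factor -/
def HNK_P {K : Type} [Field K] (w : ℕ) (v : Fin w → K) : Matrix (Fin (w + 1)) (Fin (w + 1)) K :=
  fun i k => Fin.lastCases (motive := fun _ => K)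
    (Fin.lastCases (motive := fun _ => K) 1 (fun _ => 0) k)
    (fun i' => Fin.lastCases (motive := fun _ => K) 0 (fun k' => v k' ^ (i' : ℕ)) k) i

theorem HNK_P_ll {K : Type} [Field K] (w : ℕ) (v : Fin w → K) :
    HNK_P w v (Fin.last w) (Fin.last w) = 1 := by
  unfold HNK_P
  rw [Fin.lastCases_last, Fin.lastCases_last]

theorem HNK_P_lc {K : Type} [Field K] (w : ℕ) (v : Fin w → K) (k : Fin w) :
    HNK_P w v (Fin.last w) k.castSucc = 0 := by
  unfold HNK_P
  rw [Fin.lastCases_last, Fin.lastCases_castSucc]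

theorem HNK_P_cl {K : Type} [Field K] (w : ℕ) (v : Fin w → K) (i : Fin w) :
    HNK_P w v i.castSucc (Fin.last w) = 0 := by
  unfold HNK_P
  rw [Fin.lastCases_castSucc, Fin.lastCases_last]

theorem HNK_P_cc {K : Type} [Field K] (w : ℕ) (v : Fin w → K) (i k : Fin w) :
    HNK_P w v i.castSucc k.castSucc = v k ^ (i : ℕ) := by
  unfold HNK_P
  rw [Fin.lastCases_castSucc, Fin.lastCases_castSucc]

theorem HNK_detP {K : Type} [Field K] (w : ℕ) (v : Fin w → K) :
    (HNK_P w v).det = Matrix.det (Matrix.of fun (i : Fin w) (k : Fin w) => v k ^ (i : ℕ)) := by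
  rw [Matrix.det_succ_row (HNK_P w v) (Fin.last w), Fin.sum_univ_castSucc]
  have h1 : ∑ j : Fin w, (-1 : K) ^ ((Fin.last w : ℕ) + (j.castSucc : ℕ)) *
      HNK_P w v (Fin.last w) j.castSucc *
      Matrix.det ((HNK_P w v).submatrix (Fin.last w).succAbove j.castSucc.succAbove) = 0 :=
    Finset.sum_eq_zero fun j _ => by rw [HNK_P_lc, mul_zero, zero_mul]
  rw [h1, zero_add, HNK_P_ll, Fin.val_last, Even.neg_one_pow ⟨w, rfl⟩, mul_one, one_mul]
  congr 1
  ext i k
  show HNK_P w v ((Fin.last w).succAbove i) ((Fin.last w).succAbove k) = v k ^ (i : ℕ)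
  rw [Fin.succAbove_last, HNK_P_cc]

theorem HNK_D {K : Type} [Field K] (V : Finset K) (Y : K) :
    (∑ j : Fin (V.card + 1), hk (fun m => ∑ y ∈ V, y ^ m) V.card j * Y ^ (j : ℕ)) =
      (HNK_P V.card fun k => (V.equivFin.symm k : K)).det *
      (Matrix.vandermonde (Fin.snoc (α := fun _ => K) (fun k : Fin V.card =>
        (V.equivFin.symm k : K)) Y)).det := by
  set v : Fin V.card → K := fun k => (V.equivFin.symm k : K) with hv
  rw [← Matrix.det_mul, Matrix.det_succ_row _ (Fin.last V.card)]
  refine Finset.sum_congr rfl fun j _ => ?_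
  have hlast : (HNK_P V.card v * Matrix.vandermonde (Fin.snoc (α := fun _ => K) v Y))
      (Fin.last V.card) j = Y ^ (j : ℕ) := by
    rw [Matrix.mul_apply, Fin.sum_univ_castSucc]
    have h1 : ∑ i : Fin V.card, HNK_P V.card v (Fin.last V.card) i.castSucc *
        Matrix.vandermonde (Fin.snoc (α := fun _ => K) v Y) i.castSucc j = 0 :=
      Finset.sum_eq_zero fun i _ => by rw [HNK_P_lc, zero_mul]
    rw [h1, zero_add, HNK_P_ll, one_mul, Matrix.vandermonde_apply, Fin.snoc_last]
  have hc : ∀ (i : Fin V.card) (j : Fin (V.card + 1)),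
      (HNK_P V.card v * Matrix.vandermonde (Fin.snoc (α := fun _ => K) v Y)) i.castSucc j =
        ∑ y ∈ V, y ^ ((i : ℕ) + (j : ℕ)) := by
    intro i j
    rw [Matrix.mul_apply, Fin.sum_univ_castSucc, HNK_P_cl, zero_mul, add_zero, HNK_sum]
    refine Finset.sum_congr rfl fun k _ => ?_
    rw [HNK_P_cc, Matrix.vandermonde_apply, Fin.snoc_castSucc, pow_add]
  rw [hlast]
  have hsub : (HNK_P V.card v * Matrix.vandermonde (Fin.snoc (α := fun _ => K) v Y)).submatrix
      (Fin.last V.card).succAbove j.succAbove =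
      Matrix.of fun i l : Fin V.card => (fun m => ∑ y ∈ V, y ^ m)
        ((i : ℕ) + (j.succAbove l : ℕ)) := by
    ext i l
    show (HNK_P V.card v * Matrix.vandermonde (Fin.snoc (α := fun _ => K) v Y))
      ((Fin.last V.card).succAbove i) (j.succAbove l) = ∑ y ∈ V, y ^ ((i : ℕ) + (j.succAbove l : ℕ))
    rw [Fin.succAbove_last, hc]
  rw [hsub]
  unfold hk
  rw [Fin.val_last]
  ring

theorem HNK : HNK_stmt := by
  intro K _ _ V w
  refine ⟨?_, ?_⟩
  · intro hw
    rw [HNK_last]
    by_contra hdet
    have h1 : IsUnit (Matrix.of fun i l : Fin w => (fun m => ∑ y ∈ V, y ^ m)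
        ((i : ℕ) + (l : ℕ))) := by
      rw [Matrix.isUnit_iff_isUnit_det]
      exact isUnit_iff_ne_zero.2 hdet
    have h2 := Matrix.rank_of_isUnit _ h1
    rw [HNK_mul, Fintype.card_fin] at h2
    have h3 := Matrix.rank_mul_le_left
      (Matrix.of fun (i : Fin w) (k : Fin V.card) => (V.equivFin.symm k : K) ^ (i : ℕ))
      (Matrix.of fun (k : Fin V.card) (l : Fin w) => (V.equivFin.symm k : K) ^ (l : ℕ))
    have h4 := Matrix.rank_le_card_width
      (Matrix.of fun (i : Fin w) (k : Fin V.card) => (V.equivFin.symm k : K) ^ (i : ℕ))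
    rw [Fintype.card_fin] at h4
    omega
  · rintro rfl
    refine ⟨?_, ?_⟩
    · rw [HNK_last, HNK_mul, Matrix.det_mul]
      refine mul_ne_zero (HNK_det V) ?_
      have h1 : (Matrix.of fun (k : Fin V.card) (l : Fin V.card) =>
          (V.equivFin.symm k : K) ^ (l : ℕ)) =
          Matrix.vandermonde fun k : Fin V.card => (V.equivFin.symm k : K) := by
        ext i k
        rfl
      rw [h1]
      exact Matrix.det_vandermonde_ne_zero_iff.2 (HNK_inj V)
    · intro Y
      rw [HNK_D, mul_eq_zero, HNK_detP]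
      constructor
      · rintro (h | h)
        · exact absurd h (HNK_det V)
        · by_contra hY
          refine Matrix.det_vandermonde_ne_zero_iff.2 ?_ h
          intro i j hij
          induction i using Fin.lastCases with
          | last =>
            induction j using Fin.lastCases with
            | last => rfl
            | cast j =>
              exfalso
              rw [Fin.snoc_last, Fin.snoc_castSucc] at hij
              exact hY (hij ▸ (V.equivFin.symm j).2)
          | cast i =>
            induction j using Fin.lastCases with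
            | last =>
              exfalso
              rw [Fin.snoc_last, Fin.snoc_castSucc] at hij
              exact hY (hij ▸ (V.equivFin.symm i).2)
            | cast j =>
              rw [Fin.snoc_castSucc, Fin.snoc_castSucc] at hij
              rw [HNK_inj V hij]
      · intro hY
        right
        by_contra h
        have h1 := Matrix.det_vandermonde_ne_zero_iff.1 h
        have h2 : (V.equivFin ⟨Y, hY⟩).castSucc = Fin.last V.card := by
          apply h1
          rw [Fin.snoc_castSucc, Fin.snoc_last, Equiv.symm_apply_apply]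
        exact absurd h2 (Fin.castSucc_lt_last _).ne

end Pool.Agent.PB
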