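import Pool.Agent.helper64.PB.SpecW

/-! MP_069684_lc, row pb:WAO: monotone bases which contain `x and (y or z)`. -/

set_option autoImplicit false

namespace Pool.Agent.PB

theorem WAO_le {G : Set Gate} {n : ℕ} {f : BF n} {s t : ℕ} (h : Size G f s) (hst : s ≤ t) :
    Size G f t := by
  obtain ⟨l, hl, hls, hf⟩ := h
  exact ⟨l, hl, hls.trans hst, hf⟩

theorem WAO_var (G : Set Gate) {n : ℕ} (j : Fin n) (s : ℕ) :
    Size G (fun x : Fin n → Bool => x j) s :=
  ⟨[], Prog.nil, Nat.zero_le _, Or.inr ⟨j, rfl⟩⟩

theorem WAO_const (v : Bool) (n : ℕ) : Size mon (fC v n) 1 := by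
  refine ⟨[fC v n], ?_, le_refl _, Or.inl (List.mem_singleton.2 rfl)⟩
  have hg : gConst v ∈ mon := by
    unfold mon
    cases v
    · exact Or.inl rfl
    · exact Or.inr (Or.inl rfl)
  exact Prog.step [] (gConst v) (fun i => i.elim0) Prog.nil hg (fun i => i.elim0)

theorem WAO_and : Size std fAnd 1 := by
  have hg : gAnd ∈ std := by
    unfold std
    exact Or.inr (Or.inr (Or.inr (Or.inl rfl)))
  refine ⟨[fun x => gAnd.2 fun i => (fun (y : Fin 2 → Bool) => y i) x], ?_, le_refl _, Or.inl ?_⟩
  · exact Prog.step [] gAnd (fun i => fun y => y i) Prog.nil hg (fun i => Or.inr ⟨i, rfl⟩)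
  · exact List.mem_singleton.2 rfl

/-- composition with `fAO` -/
theorem WAO_comp (hCLP : CLP_stmt) (G : Set Gate) (hG : InCl G fAO) {n : ℕ} (a b c : BF n)
    (ha : InCl G a) (hb : InCl G b) (hc : InCl G c) : InCl G (fun x => a x && (b x || c x)) := by
  have h1 := hCLP.2 G 3 n fAO ![a, b, c] hG (by
    intro i
    fin_cases i
    · exact ha
    · exact hb
    · exact hc)
  exact h1

theorem WAO_conj (hCLP : CLP_stmt) (G : Set Gate) (hG : InCl G fAO) (n : ℕ) (S : Finset (Fin n))
    (hS : S.Nonempty) :
    InCl G (fun z : Fin (n + 1) → Bool => z (Fin.last n) && decide (∀ i ∈ S, z i.castSucc = true)) := by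
  classical
  induction hS using Finset.Nonempty.cons_induction with
  | singleton i =>
    have h1 := WAO_comp hCLP G hG (fun z : Fin (n + 1) → Bool => z (Fin.last n))
      (fun z => z i.castSucc) (fun z => z i.castSucc) (hCLP.1 G (n + 1) (Fin.last n))
      (hCLP.1 G (n + 1) i.castSucc) (hCLP.1 G (n + 1) i.castSucc)
    have h2 : (fun z : Fin (n + 1) → Bool => z (Fin.last n) &&
        decide (∀ j ∈ ({i} : Finset (Fin n)), z j.castSucc = true)) =
        fun z => z (Fin.last n) && (z i.castSucc || z i.castSucc) := by
      funext z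
      simp
    rw [h2]
    exact h1
  | cons i S hi hS ih =>
    have h1 := WAO_comp hCLP G hG _
      (fun z => z i.castSucc) (fun z => z i.castSucc) ih
      (hCLP.1 G (n + 1) i.castSucc) (hCLP.1 G (n + 1) i.castSucc)
    have h2 : (fun z : Fin (n + 1) → Bool => z (Fin.last n) &&
        decide (∀ j ∈ Finset.cons i S hi, z j.castSucc = true)) =
        fun z => (z (Fin.last n) && decide (∀ j ∈ S, z j.castSucc = true)) &&
          (z i.castSucc || z i.castSucc) := by
      funext z
      rw [Bool.eq_iff_iff]
      simp only [Bool.and_eq_true, Bool.or_self, decide_eq_true_eq, Finset.mem_cons]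
      constructor
      · rintro ⟨h3, h4⟩
        exact ⟨⟨h3, fun j hj => h4 j (Or.inr hj)⟩, h4 i (Or.inl rfl)⟩
      · rintro ⟨⟨h3, h4⟩, h5⟩
        refine ⟨h3, ?_⟩
        rintro j (rfl | hj)
        · exact h5
        · exact h4 j hj
    rw [h2]
    exact h1

theorem WAO_disj (hCLP : CLP_stmt) (G : Set Gate) (hG : InCl G fAO) (n : ℕ)
    (Y : Finset (Fin n → Bool)) (hY : Y.Nonempty) (h0 : ∀ y ∈ Y, ∃ i, y i = true) :
    InCl G (fun z : Fin (n + 1) → Bool => z (Fin.last n) &&
      decide (∃ y ∈ Y, ∀ i, y i = true → z i.castSucc = true)) := by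
  classical
  have hc : ∀ y : Fin n → Bool, (∃ i, y i = true) → InCl G (fun z : Fin (n + 1) → Bool =>
      z (Fin.last n) && decide (∀ i, y i = true → z i.castSucc = true)) := by
    intro y hy
    obtain ⟨i, hi⟩ := hy
    have h1 := WAO_conj hCLP G hG n (Finset.univ.filter fun i => y i = true)
      ⟨i, Finset.mem_filter.2 ⟨Finset.mem_univ _, hi⟩⟩
    have h2 : (fun z : Fin (n + 1) → Bool =>
        z (Fin.last n) && decide (∀ i, y i = true → z i.castSucc = true)) =
        fun z => z (Fin.last n) &&
          decide (∀ i ∈ (Finset.univ.filter fun i => y i = true), z i.castSucc = true) := by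
      funext z
      simp
    rw [h2]
    exact h1
  induction hY using Finset.Nonempty.cons_induction with
  | singleton y =>
    have h1 := hc y (h0 y (Finset.mem_singleton_self y))
    have h2 : (fun z : Fin (n + 1) → Bool => z (Fin.last n) &&
        decide (∃ y' ∈ ({y} : Finset (Fin n → Bool)), ∀ i, y' i = true → z i.castSucc = true)) =
        fun z => z (Fin.last n) && decide (∀ i, y i = true → z i.castSucc = true) := by
      funext z
      simp
    rw [h2]
    exact h1
  | cons y Y hy hY ih =>
    have h1 := WAO_comp hCLP G hG (fun z : Fin (n + 1) → Bool => z (Fin.last n)) _ _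
      (hCLP.1 G (n + 1) (Fin.last n)) (ih fun y' hy' => h0 y' (Finset.mem_cons_of_mem hy'))
      (hc y (h0 y (Finset.mem_cons_self y Y)))
    have h2 : (fun z : Fin (n + 1) → Bool => z (Fin.last n) &&
        decide (∃ y' ∈ Finset.cons y Y hy, ∀ i, y' i = true → z i.castSucc = true)) =
        fun z => z (Fin.last n) && ((z (Fin.last n) &&
          decide (∃ y' ∈ Y, ∀ i, y' i = true → z i.castSucc = true)) ||
          (z (Fin.last n) && decide (∀ i, y i = true → z i.castSucc = true))) := by
      funext z
      rw [Bool.eq_iff_iff]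
      simp only [Bool.and_eq_true, Bool.or_eq_true, decide_eq_true_eq, Finset.mem_cons]
      constructor
      · rintro ⟨h3, y', (rfl | hy'), h4⟩
        · exact ⟨h3, Or.inr ⟨h3, h4⟩⟩
        · exact ⟨h3, Or.inl ⟨h3, y', hy', h4⟩⟩
      · rintro ⟨h3, (⟨_, y', hy', h4⟩ | ⟨_, h4⟩)⟩
        · exact ⟨h3, y', Or.inr hy', h4⟩
        · exact ⟨h3, y, Or.inl rfl, h4⟩
    rw [h2]
    exact h1

theorem WAO (hCLP : CLP_stmt) (hMTR : MTR_stmt) (hCMP : CMP_stmt) (hRST : RST_stmt) :
    WAO_stmt := by
  classical
  intro G hGf hGm hG
  obtain ⟨c, hc⟩ := hMTR G hGf hGm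
  refine ⟨c + 2, ?_⟩
  intro n h hn hmono
  by_cases hconst : ∃ v, ∀ x, h x = v
  · obtain ⟨v, hv⟩ := hconst
    refine ⟨1, le_refl 1, ?_, fun x => x 0, hCLP.1 G 1 0, ?_, ?_⟩
    · nlinarith
    · intro s _
      exact WAO_var std 0 _
    · intro s _
      have h1 : h = fC v n := funext hv
      rw [h1]
      exact WAO_le (WAO_const v n) (by nlinarith)
  · push Not at hconst
    have hz : h (fun _ => false) = false := by
      by_contra hcon
      have h1 : h (fun _ => false) = true := by
        rcases Bool.eq_false_or_eq_true (h fun _ => false) with h2 | h2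
        · exact h2
        · exact absurd h2 hcon
      obtain ⟨x, hx⟩ := hconst true
      exact hx (hmono _ _ (fun i hi => absurd hi Bool.false_ne_true) h1)
    obtain ⟨x1, hx1⟩ := hconst false
    have hx1' : h x1 = true := by
      rcases Bool.eq_false_or_eq_true (h x1) with h2 | h2
      · exact h2
      · exact absurd h2 hx1
    let f : BF (n + 1) := fun z => z (Fin.last n) && h (fun i => z i.castSucc)
    refine ⟨n + 1, Nat.succ_le_succ (Nat.zero_le n), ?_, f, ?_, ?_, ?_⟩
    · nlinarith
    · have h1 := WAO_disj hCLP G hG n (Finset.univ.filter fun y => h y = true)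
        ⟨x1, Finset.mem_filter.2 ⟨Finset.mem_univ _, hx1'⟩⟩ (by
          intro y hy
          by_contra hcon
          push Not at hcon
          have h2 : y = fun _ => false := by
            funext i
            rcases Bool.eq_false_or_eq_true (y i) with h3 | h3
            · exact absurd h3 (hcon i)
            · exact h3
          have h3 := (Finset.mem_filter.1 hy).2
          rw [h2, hz] at h3
          exact Bool.false_ne_true h3)
      have h2 : f = fun z => z (Fin.last n) && decide (∃ y ∈ (Finset.univ.filter
          fun y => h y = true), ∀ i, y i = true → z i.castSucc = true) := by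
        funext z
        show (z (Fin.last n) && h (fun i => z i.castSucc)) = _
        congr 1
        rw [Bool.eq_iff_iff]
        simp only [decide_eq_true_eq, Finset.mem_filter, Finset.mem_univ, true_and]
        constructor
        · intro h3
          exact ⟨_, h3, fun i hi => hi⟩
        · rintro ⟨y, hy, hyz⟩
          exact hmono y _ hyz hy
      rw [h2]
      exact h1
    · intro s hs
      have h1 := hCMP std n (n + 1) h (fun i => fun z => z i.castSucc) s (fun _ => 0) hs
        (fun i => WAO_var std i.castSucc 0)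
      have h2 := hCMP std 2 (n + 1) fAnd ![fun z => z (Fin.last n),
        fun z => h (fun i => z i.castSucc)] 1 ![0, s + ∑ i : Fin n, 0] WAO_and (by
          intro i
          fin_cases i
          · exact WAO_var std (Fin.last n) 0
          · exact h1)
      refine WAO_le h2 ?_
      rw [Fin.sum_univ_two]
      show 1 + (0 + (s + ∑ i : Fin n, 0)) ≤ (c + 2) * (s + n)
      rw [Finset.sum_const_zero]
      nlinarith
    · intro s hs
      have h1 := hc (n + 1) f s hs
      let φ : Fin (n + 1) → BF n := fun i => Fin.lastCases (fC true n) (fun j => fun x => x j) i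
      have hφl : φ (Fin.last n) = fC true n := Fin.lastCases_last
      have hφc : ∀ j : Fin n, φ j.castSucc = fun x => x j := fun j => Fin.lastCases_castSucc _
      have h2 := (hRST (n + 1) n f (c * s) φ (by
        intro i
        refine Fin.lastCases ?_ (fun j => ?_) i
        · exact Or.inr ⟨true, hφl⟩
        · exact Or.inl ⟨j, hφc j⟩)).1 h1
      have h3 : (fun x => f fun i => φ i x) = h := by
        funext x
        show (φ (Fin.last n) x && h (fun i => φ i.castSucc x)) = h x
        rw [hφl]
        show (true && h (fun i => φ i.castSucc x)) = h x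
        rw [Bool.true_and]
        congr 1
        funext i
        rw [hφc]
      rw [h3] at h2
      exact WAO_le h2 (by nlinarith)

end Pool.Agent.PB
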